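import Pool.Agent.Helper50.HT.Stmts

/-!
# Row PTC: trial state of electrons on small spheres around arbitrary separated points
-/

set_option autoImplicit false

namespace Pool.Agent.Helper24.HT

open MeasureTheory Filter
open Pool.Agent.Helper95 Pool.Agent.Helper95.PW Pool.Agent.Helper95.LN Pool.Agent.Helper50.HT

lemma nr_eq (y : R3) : nr y = ‖(WithLp.toLp 2 y : EuclideanSpace ℝ (Fin 3))‖ := by
  rw [EuclideanSpace.norm_eq]
  simp [nr, Fin.sum_univ_three, sq_abs]

lemma nr_nonneg (y : R3) : 0 ≤ nr y := Real.sqrt_nonneg _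

lemma nr_comm (x y : R3) : nr (x - y) = nr (y - x) := by
  unfold nr
  congr 1
  simp only [Pi.sub_apply]
  ring

lemma nr_tri (y a b : R3) : nr (a - b) ≤ nr (y - a) + nr (y - b) := by
  rw [nr_comm y a, nr_eq, nr_eq, nr_eq]
  have h : (WithLp.toLp 2 (a - b) : EuclideanSpace ℝ (Fin 3)) =
      WithLp.toLp 2 (a - y) + WithLp.toLp 2 (y - b) := by
    rw [← WithLp.toLp_add, sub_add_sub_cancel]
  rw [h]
  exact norm_add_le _ _

lemma nr_self (a : R3) : nr (a - a) = 0 := by simp [nr]

lemma pd_tr (i : Fin 3) (g : R3 → ℝ) (c y : R3) : pd i (fun w => g (w - c)) y = pd i g (y - c) := by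
  unfold pd
  rw [fderiv_comp_sub]

lemma tsupport_tr (g : R3 → ℝ) (c y : R3) (h : y ∈ tsupport (fun w => g (w - c))) :
    y - c ∈ tsupport g := by
  have e : tsupport (fun w => g (w - c)) ⊆ (fun w => w - c) ⁻¹' tsupport g := by
    apply closure_minimal
    · intro w hw
      exact subset_tsupport g hw
    · exact (isClosed_tsupport g).preimage (by fun_prop)
  exact e h

theorem PTC (h1 : ST_TRE) (h2 : ST_ORB) (h3 : ST_PT1) (h4 : ST_PT2) (h5 : ST_PHC) : ST_PTC := by
  have hkap : kap ≠ 0 := h5.2.1.ne'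
  obtain ⟨C0, hC0, ho⟩ := h2
  refine ⟨C0, hC0, ?_⟩
  intro n M X Z E p a hap hZ hsep hX hE
  set f : Fin n → R3 → ℝ := fun k y => orb (a k) (y - p k) with hf
  obtain ⟨ψ, hs, ha, hp, hk, hpr, hon⟩ := h1 n f
    (fun l => (ho _ (hap l)).1.comp (contDiff_id.sub contDiff_const))
    (fun l => (ho _ (hap l)).2.1.comp_homeomorph (Homeomorph.subRight (p l)))
    (fun k l y hyk hyl => by
      by_contra hkl
      have k1 := (ho _ (hap k)).2.2.1 _ (tsupport_tr (orb (a k)) _ _ hyk)
      have l1 := (ho _ (hap l)).2.2.1 _ (tsupport_tr (orb (a l)) _ _ hyl)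
      have h6 := hsep k l hkl
      have h7 := nr_tri y (p k) (p l)
      have := hap k
      have := hap l
      linarith [k1.2, l1.2])
    (fun l => by
      have := (ho _ (hap l)).2.2.2.2.1
      rw [← integral_sub_right_eq_self _ (p l)] at this
      exact this)
  have hE1 := hE ψ hs ha
  unfold QM at hE1
  rw [hk, hpr, hon M X Z] at hE1
  rw [← mul_add, ← mul_sub, mul_comm E] at hE1
  have hE2 := le_of_mul_le_mul_left hE1 hp
  have hf2 : ∀ k y, f k y ^ 2 = et (a k) (y - p k) / kap := fun k y =>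
    (ho _ (hap k)).2.2.2.1 _
  -- kinetic energy
  have hkin : ∑ l, ∑ i, ∫ y, pd i (f l) y ^ 2 ≤ C0 * ∑ k, 1 / a k ^ 2 := by
    rw [Finset.mul_sum]
    refine Finset.sum_le_sum fun l _ => ?_
    have e1 : ∑ i, ∫ y, pd i (f l) y ^ 2 = ∑ i, ∫ y, pd i (orb (a l)) y ^ 2 := by
      refine Finset.sum_congr rfl fun i _ => ?_
      rw [← integral_sub_right_eq_self (fun y => pd i (orb (a l)) y ^ 2) (p l)]
      refine integral_congr_ae (Eventually.of_forall fun y => ?_)
      show pd i (fun w => orb (a l) (w - p l)) y ^ 2 = _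
      rw [pd_tr]
    rw [e1, mul_one_div]
    exact (ho _ (hap l)).2.2.2.2.2
  -- attraction
  have hone : (∑ k, ∑ j, Z j / nr (p k - X j)) ≤
      ∑ l, ∑ j, Z j * ∫ y, f l y ^ 2 / nr (y - X j) := by
    refine Finset.sum_le_sum fun l _ => Finset.sum_le_sum fun j _ => ?_
    rcases hX l j with h | h
    · rw [h, nr_self, div_zero]
      exact mul_nonneg (hZ j) (integral_nonneg fun y => div_nonneg (sq_nonneg _) (nr_nonneg _))
    · have h6 := h3 (a l) (X j) (p l) (hap l) (by rw [nr_comm]; exact h)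
      have e2 : ∫ y, f l y ^ 2 / nr (y - X j) =
          (∫ y, et (a l) (y - p l) / nr (y - X j)) / kap := by
        rw [← integral_div]
        refine integral_congr_ae (Eventually.of_forall fun y => ?_)
        simp only [hf2]
        rw [div_right_comm]
      rw [e2, h6, nr_comm, div_right_comm, div_self hkap, mul_one_div]
  -- repulsion
  have hpair : (∑ k, ∑ l, if k < l then ∫ x, ∫ y, f k x ^ 2 * f l y ^ 2 / nr (x - y) else 0) =
      ∑ k, ∑ l, if k < l then 1 / nr (p k - p l) else 0 := by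
    refine Finset.sum_congr rfl fun k _ => Finset.sum_congr rfl fun l _ => ?_
    by_cases hkl : k < l
    · rw [if_pos hkl, if_pos hkl]
      have e0 : (∫ x, ∫ y, f k x ^ 2 * f l y ^ 2 / nr (x - y)) =
          (∫ x, ∫ y, et (a k) (x - p k) * et (a l) (y - p l) / nr (x - y)) / kap ^ 2 := by
        rw [← integral_div]
        refine integral_congr_ae (Eventually.of_forall fun x => ?_)
        simp only
        rw [← integral_div]
        refine integral_congr_ae (Eventually.of_forall fun y => ?_)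
        simp only [hf2]
        rw [div_mul_div_comm, div_right_comm, sq kap]
      have hk2 : kap ^ 2 ≠ 0 := pow_ne_zero 2 hkap
      rw [e0, (h4 _ _ (p k) (p l) (hap k) (hap l)).1 (hsep k l hkl.ne), div_right_comm,
        div_self hk2]
    · rw [if_neg hkl, if_neg hkl]
  rw [hpair] at hE2
  linarith

end Pool.Agent.Helper24.HT
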